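import Pool.Agent.W984.CN.Fin2

/-!
# From coindex to connectivity

For every fixed-point free dynamical system `(X₀, T₀)` there is a fixed-point free dynamical system
`(X, T)` with `conn P_p(X) ≥ coind_p P_p(X₀) - 2` for all primes `p`.
-/

set_option autoImplicit false

namespace Pool.Agent.Results.MP_4d0e60_an.ConnectivityFromCoindex

open Pool.Agent.W809.CI Pool.Agent.W984.CN

theorem result :
    ∀ (X₀ : Type) [TopologicalSpace X₀] [CompactSpace X₀] [TopologicalSpace.MetrizableSpace X₀]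
      (T₀ : X₀ ≃ₜ X₀), (∀ x, T₀ x ≠ x) → ∀ n : ℕ → ℕ,
      (∀ (p : ℕ) [Fact p.Prime], 2 ≤ n p → HasComap T₀ p (n p)) →
      ∃ (X : Type) (_ : TopologicalSpace X) (T : X ≃ₜ X),
        CompactSpace X ∧ TopologicalSpace.MetrizableSpace X ∧ (∀ x, T x ≠ x) ∧
        ∀ p : ℕ, p.Prime → 2 ≤ n p → IsConn (n p - 2) (Per T p) := by
  intro X₀ _ _ h T₀ hT₀ n hn
  exact conn_of_coind h T₀ hT₀ n hn

end Pool.Agent.Results.MP_4d0e60_an.ConnectivityFromCoindex
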