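import Pool.Agent.W984.CN.Fin

/-!
# Growth of the connectivity of the spaces of `p`-periodic points

There is a fixed-point free dynamical system `(X, T)` with `conn P_p(X) ≥ c p / log p` for all
large primes `p`.
-/

set_option autoImplicit false

namespace Pool.Agent.Results.MP_4d0e60_an.ConnectivityGrowth

open Pool.Agent.W809.CI Pool.Agent.W984.CN

theorem result :
    ∃ (X : Type) (_ : TopologicalSpace X) (T : X ≃ₜ X) (c : ℝ) (p₀ : ℕ),
      CompactSpace X ∧ TopologicalSpace.MetrizableSpace X ∧ (∀ x, T x ≠ x) ∧ 0 < c ∧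
      ∀ (p : ℕ) [Fact p.Prime], p₀ ≤ p → ∃ k : ℕ, c * (p / Real.log p) ≤ k ∧
        IsConn k (Per T p) := by
  obtain ⟨X, h, T, c, p₀, h1, h2, h3, h4, h5⟩ := conn
  refine ⟨X, h, T, c, p₀, h1, h2, h3, h4, fun p hp hpp => ?_⟩
  obtain ⟨m, hm, -, hc⟩ := h5 p hpp
  exact ⟨2 * m, by exact_mod_cast hm, hc⟩

end Pool.Agent.Results.MP_4d0e60_an.ConnectivityGrowth
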