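import Pool.Agent.W984.CN.Fin

/-!
# Systems with prescribed spaces of `p`-periodic points

There are `c > 0` and `p₀` such that every family of compact metrizable `ℤ_p`-spaces `Q_p` with
`ind_p Q_p ≤ c p / log p`, `p ≥ p₀` in a set `S` of primes, is the family of the spaces
of `p`-periodic points of one fixed-point free dynamical system.
-/

set_option autoImplicit false

namespace Pool.Agent.Results.MP_4d0e60_an.PrescribedPeriodicPoints

open Pool.Agent.W809.CI Pool.Agent.W984.CN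

theorem result :
    ∃ (c : ℝ) (p₀ : ℕ), 0 < c ∧
      ∀ (S : Set ℕ), (∀ p ∈ S, p.Prime ∧ p₀ ≤ p) →
      ∀ (Q : ℕ → Type) [∀ p, TopologicalSpace (Q p)] [∀ p, CompactSpace (Q p)]
        [∀ p, TopologicalSpace.MetrizableSpace (Q p)] (τ : ∀ p, Q p ≃ₜ Q p) (n : ℕ → ℕ),
        (∀ (p : ℕ) [Fact p.Prime], p ∈ S → (∀ w, (τ p ^ p) w = w) ∧
          (n p : ℝ) ≤ c * (p / Real.log p) ∧ IndLe (τ p) p (n p)) →
        ∃ (X : Type) (_ : TopologicalSpace X) (T : X ≃ₜ X),
          CompactSpace X ∧ TopologicalSpace.MetrizableSpace X ∧ (∀ x, T x ≠ x) ∧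
          (∀ p ∈ S, ∃ e : Q p ≃ₜ Per T p, ∀ w, e (τ p w) = (e w).next) ∧
          ∀ m : ℕ, (∀ p ∈ S, ¬ p ∣ m) → IsEmpty (Per T m) :=
  realise

end Pool.Agent.Results.MP_4d0e60_an.PrescribedPeriodicPoints
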